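import Mathlib
import Pool.Agent.R747.LineParab
import Pool.Agent.R747.LineParabExample

/-!
There is an analytic surface with a segment and a vertical-axis parabolic arc through each point,
contained in it and depending analytically on the point, which admits no parametrization of the
form asked for.
-/

namespace Pool.Agent.Results.MP_67bdec_gt.NoBilinearParam

open Pool.Agent.R747

theorem result : ∃ S : LineParabolaSurface, ¬AdmitsBilinearParam S :=
  ⟨saddle, saddle_not⟩

end Pool.Agent.Results.MP_67bdec_gt.NoBilinearParam
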